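import Pool.Agent.Run7.h150.WDim

/-!
# Rings `A` with `w.gl.dim A[[x]] = 1`

`w.gl.dim A[[x]] = 1` if and only if `A` is a nonzero von Neumann regular ring such that, for
every `n`, any two countable families `X i`, `Y j` of `n × n` matrices over `A` with
`X i * Y j = 0` for all `i`, `j` are separated by an idempotent matrix `E`: `X i * E = 0` and
`E * Y j = Y j` for all `i`, `j`.

The weak global dimension `Run7.h150.wglDim` is the supremum of the flat dimensions of all
right modules; flat dimension is the least length of a flat resolution; a right module is flat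
if tensoring with it preserves injectivity of homomorphisms of left modules.
-/

universe u

theorem Pool.Agent.Results.MP_d6aa4f_al.WglDimPowerSeries.result (A : Type u) [Ring A] :
    Run7.h150.wglDim (PowerSeries A) = 1 ↔
      Nontrivial A ∧ (∀ a : A, ∃ b : A, a * b * a = a) ∧
        ∀ (n : ℕ) (X Y : ℕ → Matrix (Fin n) (Fin n) A), (∀ i j, X i * Y j = 0) →
          ∃ E : Matrix (Fin n) (Fin n) A,
            E * E = E ∧ (∀ i, X i * E = 0) ∧ ∀ j, E * Y j = Y j :=
  Run7.h150.wglDim_powerSeries_eq_one_iff
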